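import Mathlib
import Pool.Agent.Helper415.DGA4

/-!
A real Banach space whose modulus of smoothness has power type `2`, a countable symmetric
dictionary in it, and a run of the Dual Greedy Algorithm whose residuals stay at norm at least
`7 / 8`.
-/

set_option autoImplicit false

open Filter Topology

namespace Pool.Agent.Results.MP_6afacc_an.DGADiverges

/-- The modulus of smoothness of `X`. -/
noncomputable def modulus (X : Type) [NormedAddCommGroup X] [NormedSpace ℝ X] (u : ℝ) : ℝ :=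
  sSup {v : ℝ | ∃ x y : X, ‖x‖ = 1 ∧ ‖y‖ = 1 ∧ v = (‖x + u • y‖ + ‖x - u • y‖) / 2 - 1}

/-- The modulus of smoothness of `X` has power type `q`. -/
def PowerType (X : Type) [NormedAddCommGroup X] [NormedSpace ℝ X] (q : ℝ) : Prop :=
  ∃ γ : ℝ, 0 < γ ∧ ∀ u : ℝ, 0 ≤ u → modulus X u ≤ γ * u ^ q

/-- `X` is uniformly smooth. -/
def UniformlySmooth (X : Type) [NormedAddCommGroup X] [NormedSpace ℝ X] : Prop :=
  Tendsto (fun u : ℝ => modulus X u / u) (𝓝[>] 0) (𝓝 0)

section

variable {X : Type} [NormedAddCommGroup X] [NormedSpace ℝ X]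

/-- `D` is a symmetric dictionary: unit vectors, dense linear span, `-g ∈ D` for `g ∈ D`. -/
structure IsSymmDictionary (D : Set X) : Prop where
  norm_one : ∀ g ∈ D, ‖g‖ = 1
  dense_span : Dense ((Submodule.span ℝ D : Submodule ℝ X) : Set X)
  symm : ∀ g ∈ D, -g ∈ D

/-- `F` is a norming functional of `f`. -/
def IsNorming (F : X →L[ℝ] ℝ) (f : X) : Prop := ‖F‖ = 1 ∧ F f = ‖f‖

/-- One step of the Dual Greedy Algorithm, from the residual `f` to the residual `f'`. -/
def Step (D : Set X) (f f' : X) : Prop :=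
  ∃ (F : X →L[ℝ] ℝ) (φ : X) (a : ℝ), IsNorming F f ∧ (φ ∈ D ∧ ∀ g ∈ D, F g ≤ F φ) ∧
    (∀ b : ℝ, ‖f - a • φ‖ ≤ ‖f - b • φ‖) ∧ f' = f - a • φ

/-- `r` is the sequence of residuals of a run of the Dual Greedy Algorithm started at `f`; the
algorithm stops at a zero residual. -/
def IsRun (D : Set X) (f : X) (r : ℕ → X) : Prop :=
  r 0 = f ∧ ∀ m, (r m = 0 → r (m + 1) = 0) ∧ (r m ≠ 0 → Step D (r m) (r (m + 1)))

end

/-! ### Proof -/

open Pool.Agent.Helper415.DGA

lemma modulus_le (u : ℝ) (hu : 0 ≤ u) : modulus XX u ≤ 10 ^ 12 * u ^ (2:ℝ) := by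
  apply Real.sSup_le
  · rintro v ⟨x, y, hx, hy, rfl⟩
    rcases hu.eq_or_lt with h0 | h0
    · subst h0
      simp [hx]
    · exact smoothX x y hx hy u h0
  · positivity

lemma modulus_nonneg (X : Type) [NormedAddCommGroup X] [NormedSpace ℝ X] (u : ℝ) :
    0 ≤ modulus X u := by
  apply Real.sSup_nonneg
  rintro v ⟨x, y, hx, hy, rfl⟩
  have h1 : ‖(x + u • y) + (x - u • y)‖ ≤ ‖x + u • y‖ + ‖x - u • y‖ := norm_add_le _ _
  have h2 : (x + u • y) + (x - u • y) = (2:ℝ) • x := by rw [two_smul]; abel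
  rw [h2, norm_smul, hx, Real.norm_eq_abs, abs_two] at h1
  linarith

/-- **Main result.** There are a Banach space `X` whose modulus of smoothness has power type `2`
(so `X` is uniformly smooth), a countable symmetric dictionary `D`, and a run of the Dual Greedy
Algorithm all of whose residuals have norm at least `7 / 8`. -/
theorem result : ∃ (X : Type) (_ : NormedAddCommGroup X) (_ : NormedSpace ℝ X)
    (_ : CompleteSpace X), PowerType X 2 ∧ UniformlySmooth X ∧
      ∃ D : Set X, IsSymmDictionary D ∧ D.Countable ∧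
        ∃ (f : X) (r : ℕ → X), IsRun D f r ∧ ∀ m, 7 / 8 ≤ ‖r m‖ := by
  have hlow : ∀ m, (7:ℝ) / 8 ≤ ‖fX m‖ := fun m => by rw [norm_fX]; exact lam_ge m
  refine ⟨XX, inferInstance, inferInstance, inferInstance,
    ⟨10 ^ 12, by norm_num, modulus_le⟩, ?_, DD, ⟨?_, dense_span, ?_⟩, ?_, fX 0, fX, ⟨rfl, ?_⟩, hlow⟩
  · -- uniform smoothness
    have h1 : Tendsto (fun u : ℝ => (10:ℝ) ^ 12 * u) (𝓝[>] 0) (𝓝 0) := by
      have : Tendsto (fun u : ℝ => (10:ℝ) ^ 12 * u) (𝓝 0) (𝓝 (10 ^ 12 * 0)) :=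
        (continuous_const.mul continuous_id).tendsto 0
      rw [mul_zero] at this
      exact this.mono_left nhdsWithin_le_nhds
    apply squeeze_zero' _ _ h1
    · filter_upwards [self_mem_nhdsWithin] with u hu
      exact div_nonneg (modulus_nonneg XX u) (le_of_lt hu)
    · filter_upwards [self_mem_nhdsWithin] with u hu
      have hu' : (0:ℝ) < u := hu
      rw [div_le_iff₀ hu']
      have := modulus_le u hu'.le
      rw [Real.rpow_two] at this
      nlinarith
  · rintro g ⟨j, rfl | rfl⟩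
    · exact norm_gX j
    · rw [norm_neg]; exact norm_gX j
  · rintro g ⟨j, rfl | rfl⟩
    · exact ⟨j, Or.inr rfl⟩
    · exact ⟨j, Or.inl (neg_neg _)⟩
  · have : DD = Set.range gX ∪ Set.range (fun j => - gX j) := by
      ext x
      constructor
      · rintro ⟨j, rfl | rfl⟩
        · exact Or.inl ⟨j, rfl⟩
        · exact Or.inr ⟨j, rfl⟩
      · rintro (⟨j, rfl⟩ | ⟨j, rfl⟩)
        · exact ⟨j, Or.inl rfl⟩
        · exact ⟨j, Or.inr rfl⟩
    rw [this]
    exact (Set.countable_range _).union (Set.countable_range _)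
  · intro m
    refine ⟨fun h0 => ?_, fun _ => ⟨FX m, gX m, aa m, ⟨norm_FX m, by rw [FX_fX, norm_fX]⟩,
      ⟨gX_mem m, ?_⟩, line_opt m, fX_succ m⟩⟩
    · have := hlow m
      rw [h0, norm_zero] at this
      norm_num at this
    · rintro g ⟨j, rfl | rfl⟩
      · exact (le_abs_self _).trans (FX_le j m)
      · rw [map_neg]; exact (neg_le_abs _).trans (FX_le j m)

end Pool.Agent.Results.MP_6afacc_an.DGADiverges
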